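import Pool.Agent.helper36.BP.SpecD

/-! Row CMB of project bp (MP_ad8ced_nt): the combinatorial inequality. -/

set_option autoImplicit false

open Finset
open Pool.Agent.FI Pool.Agent.HK
open Pool.Agent.CH (nit rgh ll2)
open Pool.Agent.SK (tr0 Th)

noncomputable section

namespace Pool.Agent.BP

theorem CMB_ev (η : ℝ) (D : ℕ) (hη : 0 < η) : ∃ x₀ : ℕ, ∀ x : ℕ, x₀ ≤ x → 1 ≤ (x : ℝ) ∧ 128 ≤ Real.log x ∧
    144 * Real.log x ^ D ≤ (x : ℝ) ^ η ∧ 8 < (x : ℝ) ^ (1 / 4 : ℝ) ∧ (2 : ℝ) ^ 10 ≤ (x : ℝ) ^ (1 / 2 : ℝ) := by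
  have h1 : ∀ᶠ x : ℕ in Filter.atTop, 1 ≤ (x : ℝ) := by
    filter_upwards [Filter.eventually_ge_atTop 1] with x hx
    exact_mod_cast hx
  have h2 : ∀ᶠ x : ℕ in Filter.atTop, 128 ≤ Real.log (x : ℝ) :=
    (Real.tendsto_log_atTop.comp tendsto_natCast_atTop_atTop).eventually_ge_atTop 128
  have h3 : ∀ᶠ x : ℕ in Filter.atTop, 144 * Real.log (x : ℝ) ^ D ≤ (x : ℝ) ^ η := by
    have h := (isLittleO_log_rpow_rpow_atTop (D : ℝ) hη)
    have h' := (h.bound (by norm_num : (0 : ℝ) < 1 / 144))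
    have h'' := tendsto_natCast_atTop_atTop.eventually (α := ℕ) h'
    filter_upwards [h'', h2] with x hx hx2
    rw [Real.norm_of_nonneg (by positivity), Real.norm_of_nonneg (by positivity), Real.rpow_natCast] at hx
    linarith
  have h4 : ∀ᶠ x : ℕ in Filter.atTop, 8 < (x : ℝ) ^ (1 / 4 : ℝ) :=
    ((tendsto_rpow_atTop (by norm_num : (0 : ℝ) < 1 / 4)).comp tendsto_natCast_atTop_atTop).eventually_gt_atTop 8
  have h5 : ∀ᶠ x : ℕ in Filter.atTop, (2 : ℝ) ^ 10 ≤ (x : ℝ) ^ (1 / 2 : ℝ) :=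
    ((tendsto_rpow_atTop (by norm_num : (0 : ℝ) < 1 / 2)).comp tendsto_natCast_atTop_atTop).eventually_ge_atTop _
  obtain ⟨x₀, hx₀⟩ := Filter.eventually_atTop.1 (h1.and (h2.and (h3.and (h4.and h5))))
  exact ⟨x₀, fun x hx => hx₀ x hx⟩

/-- Cauchy-Schwarz for products over two sets -/
theorem CMB_cs {r : ℕ} (P : Fin r → ℤ → ℝ) (T : Finset ℤ) (I J : Finset (Fin r)) :
    (∑ m ∈ T, (∏ k ∈ I, P k m) * ∏ k ∈ J, P k m) ^ 2 ≤
      (∑ m ∈ T, ∏ k ∈ I, P k m ^ 2) * ∑ m ∈ T, ∏ k ∈ J, P k m ^ 2 := by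
  have h := Finset.sum_mul_sq_le_sq_mul_sq T (fun m => ∏ k ∈ I, P k m) (fun m => ∏ k ∈ J, P k m)
  simpa only [Finset.prod_pow] using h

/-- general bound: `G` pointwise, `I` and `J` in the mean -/
theorem CMB_gen {r : ℕ} (P : Fin r → ℤ → ℝ) (T : Finset ℤ) (hP : ∀ k m, 0 ≤ P k m) (G I J : Finset (Fin r))
    (hG : ∀ m, ∏ k, P k m = (∏ k ∈ G, P k m) * ((∏ k ∈ I, P k m) * ∏ k ∈ J, P k m)) (c : ℝ)
    (hc : ∀ m ∈ T, ∏ k ∈ G, P k m ≤ c) (_hc0 : 0 ≤ c) :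
    (∑ m ∈ T, ∏ k, P k m) ^ 2 ≤
      c ^ 2 * ((∑ m ∈ T, ∏ k ∈ I, P k m ^ 2) * ∑ m ∈ T, ∏ k ∈ J, P k m ^ 2) := by
  have h0 : 0 ≤ ∑ m ∈ T, ∏ k, P k m := Finset.sum_nonneg fun m _ => Finset.prod_nonneg fun k _ => hP k m
  have h1 : ∑ m ∈ T, ∏ k, P k m ≤ c * ∑ m ∈ T, (∏ k ∈ I, P k m) * ∏ k ∈ J, P k m := by
    rw [Finset.mul_sum]
    refine Finset.sum_le_sum fun m hm => ?_
    rw [hG m]
    exact mul_le_mul_of_nonneg_right (hc m hm)
      (mul_nonneg (Finset.prod_nonneg fun k _ => hP k m) (Finset.prod_nonneg fun k _ => hP k m))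
  calc (∑ m ∈ T, ∏ k, P k m) ^ 2 ≤ (c * ∑ m ∈ T, (∏ k ∈ I, P k m) * ∏ k ∈ J, P k m) ^ 2 :=
        pow_le_pow_left₀ h0 h1 2
    _ = c ^ 2 * (∑ m ∈ T, (∏ k ∈ I, P k m) * ∏ k ∈ J, P k m) ^ 2 := by ring
    _ ≤ _ := mul_le_mul_of_nonneg_left (CMB_cs P T I J) (sq_nonneg c)

theorem CMB_sq {a b : ℝ} (hb : 0 ≤ b) (h : a ^ 2 ≤ b ^ 2) : a ≤ b := (abs_le_of_sq_le_sq' h hb).2

/-- splitting: a subset of `R` with product between `K` and `K²` -/
theorem CMB_split {r : ℕ} (N : Fin r → ℝ) (hN : ∀ k, 1 ≤ N k) (K : ℝ) (hK : 1 < K) (R : Finset (Fin r))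
    (hR : ∀ k ∈ R, N k < K) (hRK : K ≤ ∏ k ∈ R, N k) :
    ∃ I ⊆ R, K ≤ ∏ k ∈ I, N k ∧ ∏ k ∈ I, N k ≤ K * K := by
  classical
  obtain ⟨I, hI, hmin⟩ := Finset.exists_min_image (R.powerset.filter fun I => K ≤ ∏ k ∈ I, N k) Finset.card
    ⟨R, by simp [hRK]⟩
  rw [Finset.mem_filter, Finset.mem_powerset] at hI
  refine ⟨I, hI.1, hI.2, ?_⟩
  have hne : I.Nonempty := by
    rw [Finset.nonempty_iff_ne_empty]
    rintro rfl
    have := hI.2
    simp only [Finset.prod_empty] at this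
    linarith
  obtain ⟨k, hk⟩ := hne
  have h1 : ∏ j ∈ I.erase k, N j < K := by
    by_contra hcon
    rw [not_lt] at hcon
    have := hmin (I.erase k) (by
      rw [Finset.mem_filter, Finset.mem_powerset]
      exact ⟨(Finset.erase_subset k I).trans hI.1, hcon⟩)
    have h2 := Finset.card_erase_lt_of_mem hk
    omega
  rw [← Finset.mul_prod_erase I N hk]
  have h0 : 0 ≤ ∏ j ∈ I.erase k, N j := Finset.prod_nonneg fun j _ => by linarith [hN j]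
  exact mul_le_mul (hR k (hI.1 hk)).le h1.le h0 (by linarith)

theorem CMB : CMB_stmt := by
  classical
  intro η A E hη hη12
  obtain ⟨x₀, hx₀⟩ := CMB_ev η (A + E) hη
  refine ⟨A + E + 1, x₀, ?_⟩
  intro x hx r hr N S P T hN hY1 hY2 hP hS hL hnS hM
  obtain ⟨hx1, hL128, hlog, h8, h10⟩ := hx₀ x hx
  set X : ℝ := (x : ℝ) with hX
  set L : ℝ := Real.log X with hLdef
  set K : ℝ := X ^ (1 / 3 - η) with hKdef
  set Y : ℝ := ∏ k, N k with hYdef
  have hX0 : 0 < X := by linarith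
  have hL1 : 1 ≤ L := by linarith
  have hL0 : 0 < L := by linarith
  have hLE : 1 ≤ L ^ E := one_le_pow₀ hL1
  have hK0 : 0 < K := Real.rpow_pos_of_pos hX0 _
  have hXη : 144 ≤ X ^ η := by
    have : 1 ≤ L ^ (A + E) := one_le_pow₀ hL1
    linarith
  have hXη0 : 0 < X ^ η := by linarith
  -- powers
  have hpow : ∀ (s : ℝ) (n : ℕ), (X ^ s) ^ n = X ^ (s * n) := fun s n => by
    rw [← Real.rpow_natCast, ← Real.rpow_mul hX0.le]
  have hmono : ∀ {s t : ℝ}, s ≤ t → X ^ s ≤ X ^ t := fun h => Real.rpow_le_rpow_of_exponent_le hx1 h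
  have hadd : ∀ s t : ℝ, X ^ s * X ^ t = X ^ (s + t) := fun s t => (Real.rpow_add hX0 s t).symm
  have hX2 : X ^ (2 : ℝ) = X ^ 2 := by rw [← Real.rpow_natCast]; norm_num
  have h14 : X ^ (1 / 4 : ℝ) ≤ K := hmono (by linarith)
  have hK1 : 8 < K := by linarith
  have hK3 : K ^ 3 * (X ^ η) ^ 3 = X := by
    rw [hpow, hpow, hadd]
    have : (1 / 3 - η) * ((3 : ℕ) : ℝ) + η * ((3 : ℕ) : ℝ) = 1 := by push_cast; ring
    rw [this, Real.rpow_one]
  have hN0 : ∀ k, 0 < N k := fun k => by linarith [hN k]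
  have hNp1 : ∀ I : Finset (Fin r), 1 ≤ ∏ k ∈ I, N k := by
    intro I
    induction I using Finset.induction_on with
    | empty => simp
    | insert a s ha ih => rw [Finset.prod_insert ha]; nlinarith [hN a]
  have hY0 : 0 < Y := by linarith [hNp1 univ]
  have hZ0 : 0 ≤ ∑ m ∈ T, ∏ k, P k m := Finset.sum_nonneg fun m _ => Finset.prod_nonneg fun k _ => hP k m
  -- the goal in squared form
  have hgoal : ∀ c : ℝ, 0 ≤ c → (∑ m ∈ T, ∏ k, P k m) ^ 2 ≤ (144 * L ^ E * c) ^ 2 → c * X ^ η ≤ X ^ 2 →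
      ∑ m ∈ T, ∏ k, P k m ≤ X ^ 2 / L ^ A := by
    intro c hc0 h1 h2
    rw [le_div_iff₀ (by positivity)]
    have h3 := CMB_sq (by positivity) h1
    calc (∑ m ∈ T, ∏ k, P k m) * L ^ A ≤ (144 * L ^ E * c) * L ^ A := by gcongr
      _ = (144 * L ^ (A + E)) * c := by rw [pow_add]; ring
      _ ≤ X ^ η * c := by gcongr
      _ ≤ X ^ 2 := by linarith
  have hXX : X ^ (1 - η) * X ^ η = X := by rw [hadd]; simp
  have hKX : K * X ^ η = X ^ (1 / 3 : ℝ) := by rw [hKdef, hadd]; ring_nf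
  have h23 : X ^ (2 / 3 : ℝ) * X ^ (1 / 3 : ℝ) = X := by rw [hadd]; norm_num
  -- the case (c)
  have hcaseC : ∀ k₁ : Fin r, X ^ (1 / 4 : ℝ) ≤ N k₁ → ∀ I J : Finset (Fin r), Disjoint I J → I ∪ J = univ.erase k₁ →
      K ≤ ∏ k ∈ I, N k → K ≤ ∏ k ∈ J, N k → ∑ m ∈ T, ∏ k, P k m ≤ X ^ 2 / L ^ A := by
    intro k₁ h1 I J hIJ hU hI hJ
    have hsplit : ∀ f : Fin r → ℝ, ∏ k, f k = (∏ k ∈ {k₁}, f k) * ((∏ k ∈ I, f k) * ∏ k ∈ J, f k) := by
      intro f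
      rw [← Finset.prod_union hIJ, hU, Finset.prod_singleton, Finset.mul_prod_erase _ _ (Finset.mem_univ k₁)]
    have hg := CMB_gen P T hP {k₁} I J (fun m => hsplit fun k => P k m) (N k₁ / L ^ (A + E + 1))
      (fun m hm => by rw [Finset.prod_singleton]; exact hL k₁ h1 m hm) (by have := hN0 k₁; positivity)
    have hYs : Y = N k₁ * ((∏ k ∈ I, N k) * ∏ k ∈ J, N k) := by rw [hYdef, hsplit N, Finset.prod_singleton]
    set a := ∏ k ∈ I, N k with ha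
    set b := ∏ k ∈ J, N k with hb
    have ha1 : 1 ≤ a := hNp1 I
    have hb1 : 1 ≤ b := hNp1 J
    have hfI : ∑ m ∈ T, ∏ k ∈ I, P k m ^ 2 ≤ L ^ E * (2 * a) * a := (hM I).trans (by gcongr; linarith)
    have hfJ : ∑ m ∈ T, ∏ k ∈ J, P k m ^ 2 ≤ L ^ E * (2 * b) * b := (hM J).trans (by gcongr; linarith)
    have hfJ0 : 0 ≤ ∑ m ∈ T, ∏ k ∈ J, P k m ^ 2 :=
      Finset.sum_nonneg fun m _ => Finset.prod_nonneg fun k _ => sq_nonneg _
    have hN1 := hN0 k₁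
    have h2 : (∑ m ∈ T, ∏ k, P k m) ^ 2 ≤ (2 * L ^ E * Y / L ^ (A + E + 1)) ^ 2 := by
      refine hg.trans ?_
      calc (N k₁ / L ^ (A + E + 1)) ^ 2 * ((∑ m ∈ T, ∏ k ∈ I, P k m ^ 2) * ∑ m ∈ T, ∏ k ∈ J, P k m ^ 2)
          ≤ (N k₁ / L ^ (A + E + 1)) ^ 2 * ((L ^ E * (2 * a) * a) * (L ^ E * (2 * b) * b)) := by
            gcongr
        _ = (2 * L ^ E * Y / L ^ (A + E + 1)) ^ 2 := by rw [hYs]; ring
    have h3 := CMB_sq (by positivity) h2
    refine h3.trans ?_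
    rw [div_le_div_iff₀ (by positivity) (by positivity)]
    calc 2 * L ^ E * Y * L ^ A ≤ 2 * L ^ E * (64 * X ^ 2) * L ^ A := by gcongr
      _ = X ^ 2 * (L ^ (A + E) * 128) := by rw [pow_add]; ring
      _ ≤ X ^ 2 * (L ^ (A + E) * L) := by gcongr
      _ = X ^ 2 * L ^ (A + E + 1) := by rw [pow_succ L]
  -- the largest factor
  have hYbig : X ^ (3 / 2 : ℝ) ≤ Y := by
    have h1 : X ^ (3 / 2 : ℝ) * X ^ (1 / 2 : ℝ) = X ^ 2 := by rw [hadd, ← hX2]; norm_num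
    have h2 : X ^ (3 / 2 : ℝ) * 2 ^ 10 ≤ X ^ (3 / 2 : ℝ) * X ^ (1 / 2 : ℝ) := by gcongr
    nlinarith
  have hne : Nonempty (Fin r) := by
    by_contra hcon
    rw [not_nonempty_iff] at hcon
    have h1 : Y = 1 := by rw [hYdef]; exact Finset.prod_of_isEmpty _
    have h2 : X ^ (1 / 2 : ℝ) ≤ X ^ (3 / 2 : ℝ) := hmono (by norm_num)
    linarith
  obtain ⟨k₁, -, hmax⟩ := Finset.exists_max_image univ N Finset.univ_nonempty
  have hN14 : X ^ (1 / 4 : ℝ) ≤ N k₁ := by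
    have h1 : Y ≤ N k₁ ^ r := by
      have := Finset.prod_le_prod (s := univ) (f := N) (g := fun _ => N k₁) (fun k _ => (hN0 k).le) (fun k hk => hmax k hk)
      simpa using this
    have h2 : N k₁ ^ r ≤ N k₁ ^ 6 := pow_le_pow_right₀ (hN k₁) hr
    have h3 : (X ^ (1 / 4 : ℝ)) ^ 6 ≤ N k₁ ^ 6 := by
      rw [hpow]
      have : (1 / 4 : ℝ) * ((6 : ℕ) : ℝ) = 3 / 2 := by norm_num
      rw [this]; linarith
    exact (pow_le_pow_iff_left₀ (by positivity) (hN0 k₁).le (by norm_num)).1 h3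
  set R := univ.erase k₁ with hR
  have hYR : Y = N k₁ * ∏ k ∈ R, N k := (Finset.mul_prod_erase univ N (Finset.mem_univ k₁)).symm
  have hNR1 := hNp1 R
  have hc : ∀ I : Finset (Fin r), 0 ≤ ∑ m ∈ T, ∏ k ∈ I, P k m ^ 2 := fun I =>
    Finset.sum_nonneg fun m _ => Finset.prod_nonneg fun k _ => sq_nonneg _
  have hf0 : ∑ m ∈ T, ∏ k ∈ (∅ : Finset (Fin r)), P k m ^ 2 ≤ L ^ E * (2 * K) := by
    refine (hM ∅).trans ?_
    rw [Finset.prod_empty, mul_one]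
    gcongr; linarith
  have hN1 := hN0 k₁
  rcases le_or_gt (X ^ (1 - η)) (N k₁) with hbig | hsmall
  · -- case (a)
    have hSk : S k₁ := by
      by_contra hcon
      have h1 := hnS k₁ hcon
      have h2 : X ^ (2 / 3 : ℝ) * X ^ (1 / 4 : ℝ) ≤ X ^ (1 - η) := by rw [hadd]; exact hmono (by linarith)
      have h3 : 0 < X ^ (2 / 3 : ℝ) := by positivity
      nlinarith
    have hg := CMB_gen P T hP {k₁} ∅ R (fun m => by
        rw [Finset.prod_empty, one_mul, Finset.prod_singleton]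
        exact (Finset.mul_prod_erase univ (fun k => P k m) (Finset.mem_univ k₁)).symm)
      (K * √(N k₁)) (fun m hm => by rw [Finset.prod_singleton]; exact hS k₁ hSk m hm) (by positivity)
    refine hgoal (X ^ 2 / X ^ η) (by positivity) (hg.trans ?_) (by rw [div_mul_cancel₀ _ hXη0.ne'])
    have hsq : √(N k₁) ^ 2 = N k₁ := Real.sq_sqrt hN1.le
    set b := ∏ k ∈ R, N k with hb
    have hbX : b ≤ 64 * (X * X ^ η) := by
      have h1 : X ^ (1 - η) * b ≤ 64 * X ^ 2 := by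
        calc X ^ (1 - η) * b ≤ N k₁ * b := by gcongr
          _ = Y := hYR.symm
          _ ≤ _ := hY2
      have h2 : X * b ≤ 64 * X ^ 2 * X ^ η := by
        calc X * b = (X ^ (1 - η) * X ^ η) * b := by rw [hXX]
          _ = (X ^ (1 - η) * b) * X ^ η := by ring
          _ ≤ _ := by gcongr
      have h3 : X * b ≤ X * (64 * (X * X ^ η)) := by linarith
      exact le_of_mul_le_mul_left h3 hX0
    have hKle : K ≤ X * X ^ η := by
      have : K ≤ X := by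
        calc K ≤ X ^ (1 : ℝ) := hmono (by linarith)
          _ = X := Real.rpow_one X
      nlinarith
    have hfR : ∑ m ∈ T, ∏ k ∈ R, P k m ^ 2 ≤ L ^ E * (65 * (X * X ^ η)) * b := (hM R).trans (by gcongr; linarith)
    calc (K * √(N k₁)) ^ 2 * ((∑ m ∈ T, ∏ k ∈ (∅ : Finset (Fin r)), P k m ^ 2) * ∑ m ∈ T, ∏ k ∈ R, P k m ^ 2)
        ≤ (K * √(N k₁)) ^ 2 * ((L ^ E * (2 * K)) * (L ^ E * (65 * (X * X ^ η)) * b)) := by
          have := hc R; gcongr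
      _ = 130 * (L ^ E) ^ 2 * K ^ 3 * (X * X ^ η) * (√(N k₁) ^ 2 * b) := by ring
      _ = 130 * (L ^ E) ^ 2 * K ^ 3 * (X * X ^ η) * Y := by rw [hsq, ← hYR]
      _ ≤ 130 * (L ^ E) ^ 2 * K ^ 3 * (X * X ^ η) * (64 * X ^ 2) := by gcongr
      _ = 8320 * (L ^ E) ^ 2 * ((K ^ 3 * (X ^ η) ^ 3) * X ^ 3) / (X ^ η) ^ 2 := by field_simp; ring
      _ ≤ 20736 * (L ^ E) ^ 2 * ((K ^ 3 * (X ^ η) ^ 3) * X ^ 3) / (X ^ η) ^ 2 := by gcongr; norm_num
      _ = (144 * L ^ E * (X ^ 2 / X ^ η)) ^ 2 := by rw [hK3]; field_simp; ring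
  · have hN1X : N k₁ * X ^ η < X := by
      calc N k₁ * X ^ η < X ^ (1 - η) * X ^ η := by gcongr
        _ = X := hXX
    by_cases hex : ∃ k₂ ∈ R, K ≤ N k₂
    · obtain ⟨k₂, hk₂, hKk⟩ := hex
      have hRs : ∀ f : Fin r → ℝ, ∏ k ∈ R, f k = f k₂ * ∏ k ∈ R.erase k₂, f k := fun f =>
        (Finset.mul_prod_erase R f hk₂).symm
      rcases le_or_gt K (∏ k ∈ R.erase k₂, N k) with hB | hB
      · exact hcaseC k₁ hN14 {k₂} (R.erase k₂) (by simp) (by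
          rw [← Finset.insert_eq, Finset.insert_erase hk₂]) (by simpa using hKk) hB
      · -- case (b)
        have hB1 := hNp1 (R.erase k₂)
        set B := ∏ k ∈ R.erase k₂, N k with hBdef
        have hN2 := hN0 k₂
        have hYB : Y = N k₁ * (N k₂ * B) := by rw [hYR, hRs N]
        have hN2big : 8 * X ^ (2 / 3 : ℝ) < N k₂ := by
          by_contra hcon
          rw [not_lt] at hcon
          have h13 : 0 < X ^ (1 / 3 : ℝ) := by positivity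
          have h230 : 0 < X ^ (2 / 3 : ℝ) := by positivity
          have h1 : Y * (X ^ η) ^ 2 < 8 * X ^ 2 := by
            calc Y * (X ^ η) ^ 2 = (N k₁ * X ^ η) * (N k₂ * (B * X ^ η)) := by rw [hYB]; ring
              _ < X * (N k₂ * (B * X ^ η)) := by gcongr
              _ ≤ X * ((8 * X ^ (2 / 3 : ℝ)) * (K * X ^ η)) := by gcongr
              _ = 8 * X * (X ^ (2 / 3 : ℝ) * X ^ (1 / 3 : ℝ)) := by rw [hKX]; ring
              _ = 8 * X ^ 2 := by rw [h23]; ring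
          have h2 : X ^ 2 * (X ^ η) ^ 2 ≤ 2 ^ 10 * (Y * (X ^ η) ^ 2) := by nlinarith [sq_nonneg (X ^ η)]
          have h3 : (20736 : ℝ) ≤ (X ^ η) ^ 2 := by nlinarith
          have h4 : 0 < X ^ 2 := by positivity
          nlinarith
        have hS2 : S k₂ := by
          by_contra hcon
          exact absurd (hnS k₂ hcon) (not_le.2 hN2big)
        have hS1 : S k₁ := by
          by_contra hcon
          have := hnS k₁ hcon
          have := hmax k₂ (Finset.mem_univ _)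
          linarith
        have hk12 : k₁ ≠ k₂ := fun h => (Finset.ne_of_mem_erase hk₂) h.symm
        have hg := CMB_gen P T hP {k₁, k₂} ∅ (R.erase k₂) (fun m => by
            rw [Finset.prod_empty, one_mul, Finset.prod_pair hk12, mul_assoc, ← hRs fun k => P k m]
            exact (Finset.mul_prod_erase univ (fun k => P k m) (Finset.mem_univ k₁)).symm)
          ((K * √(N k₁)) * (K * √(N k₂))) (fun m hm => by
            rw [Finset.prod_pair hk12]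
            exact mul_le_mul (hS k₁ hS1 m hm) (hS k₂ hS2 m hm) (hP k₂ m) (by positivity)) (by positivity)
        refine hgoal (X ^ 2 / X ^ η) (by positivity) (hg.trans ?_) (by rw [div_mul_cancel₀ _ hXη0.ne'])
        have hsq : √(N k₁) ^ 2 = N k₁ := Real.sq_sqrt hN1.le
        have hsq2 : √(N k₂) ^ 2 = N k₂ := Real.sq_sqrt hN2.le
        have hfR : ∑ m ∈ T, ∏ k ∈ R.erase k₂, P k m ^ 2 ≤ L ^ E * (2 * K) * B :=
          (hM (R.erase k₂)).trans (by gcongr; linarith)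
        have h1a : (1 : ℝ) ≤ (X ^ η) ^ 4 := one_le_pow₀ (by linarith)
        calc ((K * √(N k₁)) * (K * √(N k₂))) ^ 2 *
              ((∑ m ∈ T, ∏ k ∈ (∅ : Finset (Fin r)), P k m ^ 2) * ∑ m ∈ T, ∏ k ∈ R.erase k₂, P k m ^ 2)
            ≤ ((K * √(N k₁)) * (K * √(N k₂))) ^ 2 * ((L ^ E * (2 * K)) * (L ^ E * (2 * K) * B)) := by
              have := hc (R.erase k₂); gcongr
          _ = 4 * (L ^ E) ^ 2 * (K ^ 3) ^ 2 * (√(N k₁) ^ 2 * (√(N k₂) ^ 2 * B)) := by ring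
          _ = 4 * (L ^ E) ^ 2 * (K ^ 3) ^ 2 * Y := by rw [hsq, hsq2, ← hYB]
          _ ≤ 4 * (L ^ E) ^ 2 * (K ^ 3) ^ 2 * (64 * X ^ 2) := by gcongr
          _ ≤ 4 * (L ^ E) ^ 2 * (K ^ 3) ^ 2 * (64 * X ^ 2) * (X ^ η) ^ 4 := le_mul_of_one_le_right (by positivity) h1a
          _ = 256 * (L ^ E) ^ 2 * ((K ^ 3 * (X ^ η) ^ 3) ^ 2 * X ^ 2) / (X ^ η) ^ 2 := by field_simp; ring
          _ ≤ 20736 * (L ^ E) ^ 2 * ((K ^ 3 * (X ^ η) ^ 3) ^ 2 * X ^ 2) / (X ^ η) ^ 2 := by gcongr; norm_num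
          _ = (144 * L ^ E * (X ^ 2 / X ^ η)) ^ 2 := by rw [hK3]; field_simp; ring
    · -- case (d)
      push Not at hex
      have hRbig : K ^ 3 ≤ ∏ k ∈ R, N k := by
        set b := ∏ k ∈ R, N k with hb
        have h1 : X ^ 2 ≤ 2 ^ 10 * (N k₁ * b) := by rw [← hYR]; exact hY1
        have h2 : X ^ 2 * X ^ η ≤ 2 ^ 10 * (X * b) := by
          calc X ^ 2 * X ^ η ≤ 2 ^ 10 * (N k₁ * b) * X ^ η := by gcongr
            _ = 2 ^ 10 * ((N k₁ * X ^ η) * b) := by ring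
            _ ≤ 2 ^ 10 * (X * b) := by gcongr
        have h3 : X * X ^ η ≤ 2 ^ 10 * b := by
          have : X * (X * X ^ η) ≤ X * (2 ^ 10 * b) := by linarith
          exact le_of_mul_le_mul_left this hX0
        have h4 : (2 : ℝ) ^ 10 ≤ (X ^ η) ^ 4 := by
          calc (2 : ℝ) ^ 10 ≤ 144 ^ 4 := by norm_num
            _ ≤ (X ^ η) ^ 4 := by gcongr
        have h5 : 2 ^ 10 * K ^ 3 ≤ X * X ^ η := by
          calc 2 ^ 10 * K ^ 3 ≤ (X ^ η) ^ 4 * K ^ 3 := by gcongr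
            _ = (K ^ 3 * (X ^ η) ^ 3) * X ^ η := by ring
            _ = X * X ^ η := by rw [hK3]
        linarith
      have hKR : K ≤ ∏ k ∈ R, N k := by
        have : K ≤ K ^ 3 := by nlinarith [sq_nonneg K, sq_nonneg (K - 1)]
        linarith
      obtain ⟨I, hIR, hI1, hI2⟩ := CMB_split N hN K (by linarith) R (fun k hk => hex k hk) hKR
      refine hcaseC k₁ hN14 I (R \ I) Finset.disjoint_sdiff (Finset.union_sdiff_of_subset hIR) hI1 ?_
      have h1 : (∏ k ∈ R \ I, N k) * ∏ k ∈ I, N k = ∏ k ∈ R, N k := Finset.prod_sdiff hIR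
      by_contra hcon
      rw [not_le] at hcon
      have hJ1 := hNp1 (R \ I)
      have hIp := hNp1 I
      have : (∏ k ∈ R \ I, N k) * ∏ k ∈ I, N k < K * (K * K) := by
        calc (∏ k ∈ R \ I, N k) * ∏ k ∈ I, N k < K * ∏ k ∈ I, N k := by gcongr
          _ ≤ K * (K * K) := by gcongr
      nlinarith

end Pool.Agent.BP
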