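import Pool.Agent.helper36.BP.SpecD

/-! Row KEB of project bp (MP_ad8ced_nt): one block. -/

set_option autoImplicit false

open Finset
open Pool.Agent.FI Pool.Agent.HK
open Pool.Agent.CH (nit rgh ll2)
open Pool.Agent.SK (tr0 Th)

noncomputable section

namespace Pool.Agent.BP

theorem KEB_lep : 1 ≤ lep := by
  unfold lep
  rw [Real.le_log_iff_exp_le (by positivity)]
  have := Real.exp_one_lt_d9
  have h8 : 0 ≤ √(8 : ℝ) := Real.sqrt_nonneg _
  linarith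

theorem KEB_fr (α : ℝ) (h0 : 0 ≤ α) (h1 : α < 2 * Real.pi) (M : ℕ) (m : ℤ) (hm : m ∈ Icc (-(M : ℤ)) M) :
    |fr α m| ≤ 4 * (1 + M) := by
  rw [Finset.mem_Icc] at hm
  have hm1 : -(M : ℝ) ≤ m := by exact_mod_cast hm.1
  have hm2 : (m : ℝ) ≤ M := by exact_mod_cast hm.2
  have hl := KEB_lep
  have hpi := Real.pi_pos
  have hpi4 := Real.pi_le_four
  have hM0 : (0 : ℝ) ≤ M := Nat.cast_nonneg M
  unfold fr
  rw [abs_div, abs_of_pos (by linarith : (0 : ℝ) < 2 * lep), div_le_iff₀ (by linarith)]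
  have h2 : |α + 2 * Real.pi * m| ≤ 2 * Real.pi * (1 + M) := by
    rw [abs_le]; constructor <;> nlinarith
  calc |α + 2 * Real.pi * m| ≤ 2 * Real.pi * (1 + M) := h2
    _ ≤ 2 * 4 * (1 + M) := by gcongr
    _ = 4 * (1 + M) * (2 * 1) := by ring
    _ ≤ 4 * (1 + M) * (2 * lep) := by gcongr

theorem KEB_zero (x e : ℕ) (h : zx x < 2 ^ e) (g : ℤ × ℤ → ℂ) (t : ℝ) :
    pol (fun z => wt x 2 z * g z) e t = 0 := by
  unfold pol
  refine Finset.sum_eq_zero fun n hn => ?_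
  rw [Finset.mem_Ico] at hn
  have : rf (fun z => (wt x 2 z : ℂ) * g z) n = 0 := by
    unfold rf
    refine Finset.sum_eq_zero fun z hz => ?_
    rw [Finset.mem_filter] at hz
    have h1 : ¬ nn z ≤ zx x := by rw [hz.2]; omega
    simp [wt, h1]
  rw [this, zero_mul]

theorem KEB_ev (C D : ℝ) (n : ℕ) (η : ℝ) (hη : 0 < η) : ∃ x₀ : ℕ, ∀ x : ℕ, x₀ ≤ x → 1 ≤ (x : ℝ) ∧
    4 ≤ Real.log x ∧ D ≤ Real.log x ∧ C * Real.log x ^ n ≤ (x : ℝ) ^ η ∧ 8 ≤ (x : ℝ) ^ (2 / 3 : ℝ) := by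
  have h1 : ∀ᶠ x : ℕ in Filter.atTop, 1 ≤ (x : ℝ) := by
    filter_upwards [Filter.eventually_ge_atTop 1] with x hx
    exact_mod_cast hx
  have h2 : ∀ c : ℝ, ∀ᶠ x : ℕ in Filter.atTop, c ≤ Real.log (x : ℝ) := fun c =>
    (Real.tendsto_log_atTop.comp tendsto_natCast_atTop_atTop).eventually_ge_atTop c
  have h3 : ∀ᶠ x : ℕ in Filter.atTop, C * Real.log (x : ℝ) ^ n ≤ (x : ℝ) ^ η := by
    have h := (isLittleO_log_rpow_rpow_atTop (n : ℝ) hη)
    have hC : 0 < 1 / (|C| + 1) := by positivity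
    have h'' := tendsto_natCast_atTop_atTop.eventually (α := ℕ) (h.bound hC)
    filter_upwards [h'', h2 4] with x hx hx2
    rw [Real.norm_of_nonneg (by positivity), Real.norm_of_nonneg (by positivity), Real.rpow_natCast,
      one_div_mul_eq_div, le_div_iff₀ (by positivity)] at hx
    have h5 : 0 ≤ Real.log (x : ℝ) ^ n := by positivity
    nlinarith [le_abs_self C]
  have h4 : ∀ᶠ x : ℕ in Filter.atTop, 8 ≤ (x : ℝ) ^ (2 / 3 : ℝ) :=
    ((tendsto_rpow_atTop (by norm_num : (0 : ℝ) < 2 / 3)).comp tendsto_natCast_atTop_atTop).eventually_ge_atTop 8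
  obtain ⟨x₀, hx₀⟩ := Filter.eventually_atTop.1 (h1.and ((h2 4).and ((h2 D).and (h3.and h4))))
  exact ⟨x₀, fun x hx => hx₀ x hx⟩

theorem KEB (hPF1 : PF1_stmt) (hPF2 : PF2_stmt) (hPF3 : PF3_stmt) (hCMB : CMB_stmt) : KEB_stmt := by
  intro η A B hη hη3
  obtain ⟨C₁, hC₁, h1⟩ := hPF1
  choose C₃ E₃ hC₃ h3 using hPF3
  set Em := ∑ r ∈ range 7, E₃ r with hEm
  set Cm := ∑ r ∈ range 7, C₃ r with hCm
  obtain ⟨A', x₁, hcmb⟩ := hCMB (η / 4) A (Em + 1) (by linarith) (by linarith)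
  obtain ⟨x₂, h2⟩ := hPF2 A' B 1
  obtain ⟨x₃, hev⟩ := KEB_ev (1250 * C₁) Cm (3 * B + 3) (η / 4) (by linarith)
  refine ⟨max x₁ (max x₂ (max x₃ 2)), ?_⟩
  intro x hx d hd hdB ψ hψ j i hj hi α hα0 hα1 hU M hM1 hM t ht r hr a e ha hY1 hY2
  have hxx₁ : x₁ ≤ x := le_trans (le_max_left _ _) hx
  have hxx₂ : x₂ ≤ x := le_trans (le_trans (le_max_left _ _) (le_max_right _ _)) hx
  have hxx₃ : x₃ ≤ x := le_trans (le_trans (le_trans (le_max_left _ _) (le_max_right _ _)) (le_max_right _ _)) hx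
  have hx2 : 2 ≤ x := le_trans (le_trans (le_trans (le_max_right _ _) (le_max_right _ _)) (le_max_right _ _)) hx
  obtain ⟨hX1, hL4, hLC, hLη, h8⟩ := hev x hxx₃
  set X : ℝ := (x : ℝ) with hX
  set L : ℝ := Real.log X with hLdef
  have hX0 : 0 < X := by linarith
  have hL1 : 1 ≤ L := by linarith
  have hmono : ∀ {s t : ℝ}, s ≤ t → X ^ s ≤ X ^ t := fun h => Real.rpow_le_rpow_of_exponent_le hX1 h
  have hadd : ∀ s t : ℝ, X ^ s * X ^ t = X ^ (s + t) := fun s t => (Real.rpow_add hX0 s t).symm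
  set P : Fin r → ℤ → ℝ := fun k m => ‖pol (fun z => wt x (a k) z * HC ψ j i (fr α m) z) (e k) t‖ with hP
  set T : Finset ℤ := {m ∈ Icc (-(M : ℤ)) M | fr α m ≠ 0} with hT
  show ∑ m ∈ T, ∏ k, P k m ≤ X ^ 2 / L ^ A
  have hek : ∀ k, 2 ^ e k ≤ 64 * x ^ 2 := by
    intro k
    refine le_trans ?_ hY2
    exact Finset.single_le_prod' (f := fun k => 2 ^ e k) (fun k _ => Nat.one_le_two_pow) (Finset.mem_univ k)
  by_cases hz : ∃ k, a k = 2 ∧ zx x < 2 ^ e k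
  · obtain ⟨k, hak, hzk⟩ := hz
    have : ∑ m ∈ T, ∏ k, P k m = 0 := by
      refine Finset.sum_eq_zero fun m _ => Finset.prod_eq_zero (Finset.mem_univ k) ?_
      show ‖pol (fun z => wt x (a k) z * HC ψ j i (fr α m) z) (e k) t‖ = 0
      rw [hak, KEB_zero x (e k) hzk (HC ψ j i (fr α m)) t, norm_zero]
    rw [this]; positivity
  push Not at hz
  have hMX : (M : ℝ) ≤ X ^ (1 / 3 - η / 2) := hM.trans (hmono (by linarith))
  have hX12 : 1 ≤ X ^ (1 / 3 - η / 2) := Real.one_le_rpow hX1 (by linarith)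
  have hκ : ∀ m ∈ T, |fr α m| ≤ 4 * (1 + M) := fun m hm =>
    KEB_fr α hα0 hα1 M m (Finset.mem_of_mem_filter m hm)
  have hlin : X ^ (1 / 3 - η / 2) * 8 ≤ X := by
    calc X ^ (1 / 3 - η / 2) * 8 ≤ X ^ (1 / 3 : ℝ) * X ^ (2 / 3 : ℝ) := by
          gcongr; linarith
      _ = X := by rw [hadd]; norm_num
  have he : ∀ k, ((e k : ℝ) + 1) ≤ 5 * L := by
    intro k
    have h4 : ((2 : ℝ) ^ e k) ≤ 64 * X ^ 2 := by rw [hX]; exact_mod_cast hek k
    have h5 : (e k : ℝ) * Real.log 2 ≤ Real.log 64 + 2 * L := by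
      have := Real.log_le_log (by positivity) h4
      rw [Real.log_pow, Real.log_mul (by norm_num) (by positivity), Real.log_pow] at this
      push_cast at this
      linarith
    have h6 : Real.log 64 = 6 * Real.log 2 := by
      rw [show (64 : ℝ) = 2 ^ 6 by norm_num, Real.log_pow]; norm_num
    have h7 := Real.log_two_gt_d9
    nlinarith
  refine hcmb x hxx₁ r hr (fun k => (2 : ℝ) ^ e k) (fun k => a k ≤ 1) P T (fun k => one_le_pow₀ (by norm_num)) ?_ ?_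
    (fun k m => norm_nonneg _) ?_ ?_ ?_ ?_
  · exact_mod_cast hY1
  · exact_mod_cast hY2
  · intro k hk m hm
    have hm2 := (Finset.mem_filter.1 hm).2
    have h4 := h1 d hd ψ hψ j i hj hi (fr α m) t (hU m) hm2 x (a k) (e k) hk
    have hd3 : (d : ℝ) ^ 3 ≤ L ^ (3 * B) := by
      calc (d : ℝ) ^ 3 ≤ (L ^ B) ^ 3 := by gcongr
        _ = L ^ (3 * B) := by rw [← pow_mul, mul_comm]
    have hs : 1 + |fr α m| + |t| ≤ 10 * X ^ (1 / 3 - η / 2) := by
      have := hκ m hm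
      linarith
    calc P k m ≤ C₁ * (d : ℝ) ^ 3 * (1 + |fr α m| + |t|) * (e k + 1) ^ 3 * √((2 : ℝ) ^ e k) := h4
      _ ≤ C₁ * L ^ (3 * B) * (10 * X ^ (1 / 3 - η / 2)) * (5 * L) ^ 3 * √((2 : ℝ) ^ e k) := by
          have := he k
          gcongr
      _ = ((1250 * C₁) * L ^ (3 * B + 3)) * X ^ (1 / 3 - η / 2) * √((2 : ℝ) ^ e k) := by rw [pow_add]; ring
      _ ≤ X ^ (η / 4) * X ^ (1 / 3 - η / 2) * √((2 : ℝ) ^ e k) := by gcongr
      _ = X ^ (1 / 3 - η / 4) * √((2 : ℝ) ^ e k) := by rw [hadd]; ring_nf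
  · intro k hk m hm
    have hm2 := (Finset.mem_filter.1 hm).2
    refine h2 x hxx₂ d hd hdB ψ hψ j i hj hi (fr α m) t (hU m) hm2 ?_ ?_ (a k) (e k) (ha k) hk (hek k)
    · rw [pow_one]
      have := hκ m hm
      linarith
    · rw [pow_one]; linarith
  · intro k hk
    have h4 := hz k (by have := ha k; omega)
    have h5 : ((2 : ℝ) ^ e k) ≤ (zx x : ℝ) := by exact_mod_cast h4
    have h6 : (zx x : ℝ) ≤ 4 * X ^ (2 / 3 : ℝ) + 1 := (Nat.ceil_lt_add_one (by positivity)).le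
    have h7 : 1 ≤ X ^ (2 / 3 : ℝ) := by linarith
    show (2 : ℝ) ^ e k ≤ 8 * X ^ (2 / 3 : ℝ)
    linarith
  · intro I
    have h4 := h3 r x hx2 a e ha hek I d ψ hψ j i α t hU M hM1
    have hr7 : r ∈ range 7 := by rw [Finset.mem_range]; omega
    have hE : E₃ r ≤ Em := Finset.single_le_sum (f := E₃) (fun _ _ => Nat.zero_le _) hr7
    have hC : C₃ r ≤ Cm := Finset.single_le_sum (f := C₃) (fun r _ => (hC₃ r).le) hr7
    have hsub : ∑ m ∈ T, ∏ k ∈ I, P k m ^ 2 ≤ ∑ m ∈ Icc (-(M : ℤ)) M, ∏ k ∈ I, P k m ^ 2 :=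
      Finset.sum_le_sum_of_subset_of_nonneg (Finset.filter_subset _ _)
        fun m _ _ => Finset.prod_nonneg fun k _ => sq_nonneg _
    refine (hsub.trans h4).trans ?_
    have hMK : (M : ℝ) ≤ X ^ (1 / 3 - η / 4) := hM.trans (hmono (by linarith))
    have hCL : C₃ r * L ^ E₃ r ≤ L ^ (Em + 1) := by
      calc C₃ r * L ^ E₃ r ≤ L * L ^ Em := by
            have := hC₃ r
            gcongr
            linarith
        _ = L ^ (Em + 1) := by rw [pow_succ]; ring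
    have hN0 : 0 ≤ ∏ k ∈ I, (2 : ℝ) ^ e k := by positivity
    gcongr

end Pool.Agent.BP
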